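import Mathlib
import Pool.Agent.Helper681.Shor1

/-!
Shorey's question on perfect powers among the values of sparse polynomials, for the solutions
`y ^ m = f x` in which a fixed proportion (on the logarithmic scale) of `x` is made of primes
dividing `y`.
-/

set_option autoImplicit false

namespace Pool.Agent.Results.MP_0a8d91_nt.SharedPart

open Polynomial

lemma dvd_pow_of {d g H : ℕ} (hd : d ≠ 0) (hg : g ≠ 0)
    (h : ∀ q : ℕ, q.Prime → q ∣ d → q ∣ g ∧ ¬ q ^ H ∣ d) : d ∣ g ^ H := by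
  rw [← Nat.factorization_le_iff_dvd hd (pow_ne_zero _ hg)]
  intro q
  by_cases hq : q.Prime ∧ q ∣ d
  · obtain ⟨h1, h2⟩ := h q hq.1 hq.2
    rw [Nat.factorization_pow]
    have h3 : d.factorization q < H := by
      by_contra hc
      push Not at hc
      exact h2 ((hq.1.pow_dvd_iff_le_factorization hd).2 hc)
    have h4 : 1 ≤ g.factorization q := by
      rw [← hq.1.pow_dvd_iff_le_factorization hg, pow_one]
      exact h1
    simp only [Finsupp.smul_apply, smul_eq_mul]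
    nlinarith
  · have : d.factorization q = 0 := by
      rw [Nat.factorization_eq_zero_iff]
      tauto
    rw [this]
    exact Nat.zero_le _

theorem result :
    ∀ L H K : ℕ, ∃ C : ℕ, ∀ f : Polynomial ℤ,
      f.support.card = L →
      (∀ i, |f.coeff i| ≤ (H : ℤ)) →
      f.coeff 0 ≠ 0 →
      ∀ (m : ℕ) (x y : ℤ), 1 < |y| → y ^ m = f.eval x →
        (∃ d : ℕ, 0 < d ∧ (d : ℤ) ∣ x ∧ (∀ q : ℕ, q.Prime → q ∣ d → (q : ℤ) ∣ y) ∧
          |x| ≤ (d : ℤ) ^ K) →
        m ≤ C ∨ (∃ S ⊆ f.support, S.Nonempty ∧ ∑ i ∈ S, f.coeff i * x ^ i = 0) := by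
  intro L H K
  refine ⟨max H (Helper681.Shor.b (L * H) (H * K) (L + 1)), ?_⟩
  intro f hL hH h0 m x y hy hxy ⟨d, hd0, hdx, hdy, hxd⟩
  by_cases hns : ∃ S ⊆ f.support, S.Nonempty ∧ ∑ i ∈ S, f.coeff i * x ^ i = 0
  · exact Or.inr hns
  left
  rcases Nat.lt_or_ge H m with hm | hm
  swap
  · exact hm.trans (le_max_left _ _)
  refine le_trans ?_ (le_max_right _ _)
  have hy0 : y ≠ 0 := by rintro rfl; simp at hy
  have hS0 : (0 : ℕ) ∈ f.support := mem_support_iff.2 h0
  set g : ℕ := Int.gcd x y with hg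
  have hg0 : g ≠ 0 := by
    intro h
    rw [hg, Int.gcd_eq_zero_iff] at h
    exact hy0 h.2
  have hgx : (g : ℤ) ∣ x := Int.gcd_dvd_left x y
  have hgy : (g : ℤ) ∣ y := Int.gcd_dvd_right x y
  have hfull : ∑ i ∈ f.support, f.coeff i * x ^ i = y ^ m := by
    rw [hxy, eval_eq_sum, sum_def]
  have hdg : d ∣ g ^ H := by
    refine dvd_pow_of hd0.ne' hg0 ?_
    intro q hq hqd
    have hqx : (q : ℤ) ∣ x := (Int.natCast_dvd_natCast.2 hqd).trans hdx
    have hqy := hdy q hq hqd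
    refine ⟨?_, ?_⟩
    · have := Int.dvd_coe_gcd hqx hqy
      exact_mod_cast this
    · intro hqH
      have h1 : ((q : ℤ) ^ H) ∣ x := by
        have : ((q ^ H : ℕ) : ℤ) ∣ (d : ℤ) := Int.natCast_dvd_natCast.2 hqH
        push_cast at this
        exact this.trans hdx
      have h2 : ((q : ℤ) ^ H) ∣ y ^ m := (pow_dvd_pow _ hm.le).trans (pow_dvd_pow_of_dvd hqy m)
      have h3 : f.coeff 0 = y ^ m - ∑ i ∈ f.support.erase 0, f.coeff i * x ^ i := by
        rw [← hfull, ← Finset.add_sum_erase _ _ hS0]; simp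
      have h4 : ((q : ℤ) ^ H) ∣ f.coeff 0 := by
        rw [h3]
        apply dvd_sub h2
        apply Finset.dvd_sum
        intro i hi
        have hi0 : i ≠ 0 := Finset.ne_of_mem_erase hi
        exact Dvd.dvd.mul_left (h1.trans (dvd_pow_self x hi0)) _
      have h5 : (q : ℤ) ^ H ≤ |f.coeff 0| :=
        Int.le_of_dvd (abs_pos.2 h0) ((dvd_abs _ _).2 h4)
      have h6 : (q : ℤ) ^ H ≤ (H : ℤ) := h5.trans (hH 0)
      have h7 : q ^ H ≤ H := by exact_mod_cast h6
      have h8 : H < q ^ H := Nat.lt_pow_self hq.one_lt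
      omega
  have hxg : |x| ≤ (g : ℤ) ^ (H * K) := by
    have h1 : d ≤ g ^ H := Nat.le_of_dvd (by positivity) hdg
    have h2 : d ^ K ≤ g ^ (H * K) := by
      rw [pow_mul]; exact Nat.pow_le_pow_left h1 K
    exact hxd.trans (by exact_mod_cast h2)
  exact Helper681.Shor.main hL hH h0 hy hxy (Nat.pos_of_ne_zero hg0) hgx hgy hxg hns

end Pool.Agent.Results.MP_0a8d91_nt.SharedPart
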